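import Pool.Agent.helper94.EU.SpecII

set_option autoImplicit false

open Finset

namespace Pool.Agent.EU

open Pool.Agent.FI Pool.Agent.FJ

private theorem CNI_card (S : Finset ℤ) (L : ℝ) (hL : 0 ≤ L)
    (h : ∀ l ∈ S, ∀ l' ∈ S, |(l : ℝ) - l'| ≤ L) : (#S : ℝ) ≤ L + 1 := by
  rcases S.eq_empty_or_nonempty with h0 | h0
  · rw [h0, card_empty, Nat.cast_zero]
    linarith
  · have h1 : S ⊆ Icc (S.min' h0) (S.max' h0) := fun l hl =>
      mem_Icc.mpr ⟨S.min'_le l hl, S.le_max' l hl⟩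
    have h2 := card_le_card h1
    rw [Int.card_Icc] at h2
    have h3 := h _ (S.max'_mem h0) _ (S.min'_mem h0)
    have h4 : S.min' h0 ≤ S.max' h0 := S.min'_le _ (S.max'_mem h0)
    have h5 : ((S.max' h0 + 1 - S.min' h0).toNat : ℝ) = (S.max' h0 : ℝ) + 1 - S.min' h0 := by
      have h6 : ((S.max' h0 + 1 - S.min' h0).toNat : ℤ) = S.max' h0 + 1 - S.min' h0 :=
        Int.toNat_of_nonneg (by linarith)
      have h7 : (((S.max' h0 + 1 - S.min' h0).toNat : ℤ) : ℝ) = ((S.max' h0 + 1 - S.min' h0 : ℤ) : ℝ) := by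
        rw [h6]
      push_cast at h7
      exact h7
    have h6 : (#S : ℝ) ≤ ((S.max' h0 + 1 - S.min' h0).toNat : ℝ) := by exact_mod_cast h2
    rw [h5] at h6
    have h7 := le_abs_self ((S.max' h0 : ℝ) - S.min' h0)
    linarith

private theorem CNI_aff (S : Finset ℤ) (g : ℤ → ℝ) (s c d N W : ℝ) (hN : 0 < N) (hc : N ≤ |c|) (hd : d ≠ 0)
    (hg : ∀ l : ℤ, g l = (s - c * l) / d) (hW0 : 0 ≤ W) (hW : ∀ l ∈ S, ∀ l' ∈ S, |g l - g l'| ≤ W) :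
    (#S : ℝ) ≤ W * |d| / N + 1 := by
  refine CNI_card S _ (by positivity) fun l hl l' hl' => ?_
  have h1 := hW l hl l' hl'
  have hd' : 0 < |d| := abs_pos.mpr hd
  have h2 : g l - g l' = -(c * ((l : ℝ) - l')) / d := by
    rw [hg, hg]
    ring
  rw [h2, abs_div, abs_neg, abs_mul, div_le_iff₀ hd'] at h1
  rw [le_div_iff₀ hN]
  calc |(l : ℝ) - l'| * N ≤ |(l : ℝ) - l'| * |c| := mul_le_mul_of_nonneg_left hc (abs_nonneg _)
    _ = |c| * |(l : ℝ) - l'| := mul_comm _ _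
    _ ≤ W * |d| := h1

private theorem CNI_N8 (N : ℕ) (z : ℤ × ℤ) (hz : z ∈ ZD N) : (N : ℝ) ≤ |(N8 z : ℝ)| := by
  have h1 := (mem_filter.mp hz).2.1
  have h2 : ((nn z : ℕ) : ℝ) = |(N8 z : ℝ)| := by
    unfold nn
    rw [Nat.cast_natAbs, Int.cast_abs]
  rw [← h2]
  exact_mod_cast h1.le

theorem CNI (hGEO : GEO_stmt) : CNI_stmt := by
  classical
  intro x N A hx hN z hz z' hz' hdl
  have hN0 : (0 : ℝ) < N := by exact_mod_cast hN
  have hd : (dl z z' : ℝ) ≠ 0 := by exact_mod_cast hdl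
  have hda : ((dl z z').natAbs : ℝ) = |(dl z z' : ℝ)| := by
    rw [Nat.cast_natAbs, Int.cast_abs]
  have hInd : ∀ l₁ l₂ : ℤ, Ind A z z' l₁ l₂ ≠ 0 → 0 < a1 z z' l₁ l₂ ∧ a1 z z' l₁ l₂ ≤ A ∧
      0 < a2 z z' l₁ l₂ ∧ a2 z z' l₁ l₂ ≤ A := by
    intro l₁ l₂ h
    by_contra hcon
    exact h (if_neg hcon)
  have hA0 : (0 : ℝ) ≤ A := Nat.cast_nonneg A
  rw [hda]
  refine ⟨fun l₁ => ?_, fun l₂ => ?_, fun hsg l₁ T Y hY => ?_⟩
  · refine CNI_aff _ (fun l₂ => a1 z z' l₁ l₂) ((sp z z' : ℝ) * l₁) (N8 z) (dl z z') N A hN0 (CNI_N8 N z hz) hd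
      (fun l => rfl) hA0 fun l hl l' hl' => ?_
    obtain ⟨h1, h2, -, -⟩ := hInd _ _ (mem_filter.mp hl).2
    obtain ⟨h3, h4, -, -⟩ := hInd _ _ (mem_filter.mp hl').2
    show |a1 z z' l₁ l - a1 z z' l₁ l'| ≤ A
    rw [abs_le]
    constructor <;> linarith
  · refine CNI_aff _ (fun l₁ => a2 z z' l₁ l₂) (-((sp z z' : ℝ) * l₂)) (-(N8 z' : ℝ)) (dl z z') N A hN0
      (by rw [abs_neg]; exact CNI_N8 N z' hz') hd
      (fun l => by unfold a2; ring) hA0 fun l hl l' hl' => ?_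
    obtain ⟨-, -, h1, h2⟩ := hInd _ _ (mem_filter.mp hl).2
    obtain ⟨-, -, h3, h4⟩ := hInd _ _ (mem_filter.mp hl').2
    show |a2 z z' l l₂ - a2 z z' l' l₂| ≤ A
    rw [abs_le]
    constructor <;> linarith
  · have h1 : (#{l₂ ∈ Ioc (x : ℤ) (2 * x) | |a1 z z' l₁ l₂ - T| ≤ Y} : ℝ) ≤ (2 * Y) * |(dl z z' : ℝ)| / N + 1 := by
      refine CNI_aff _ (fun l₂ => a1 z z' l₁ l₂) ((sp z z' : ℝ) * l₁) (N8 z) (dl z z') N (2 * Y) hN0
        (CNI_N8 N z hz) hd (fun l => rfl) (by linarith) fun l hl l' hl' => ?_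
      have h1 := abs_le.mp (mem_filter.mp hl).2
      have h2 := abs_le.mp (mem_filter.mp hl').2
      show |a1 z z' l₁ l - a1 z z' l₁ l'| ≤ 2 * Y
      rw [abs_le]
      constructor <;> linarith [h1.1, h1.2, h2.1, h2.2]
    have hsp : (N : ℝ) ≤ |(sp z z' : ℝ)| := by
      obtain ⟨-, h2, -⟩ := hGEO N hN z hz z' hz' hsg
      have h3 : (N : ℝ) ≤ nn z := by exact_mod_cast (mem_filter.mp hz).2.1.le
      have h4 : (N : ℝ) ≤ nn z' := by exact_mod_cast (mem_filter.mp hz').2.1.le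
      have h5 : |((N8 z).sign : ℝ)| = 1 := by
        have h6 : N8 z ≠ 0 := by
          intro h6
          have h7 := (mem_filter.mp hz).2.1
          unfold nn at h7
          rw [h6, Int.natAbs_zero] at h7
          omega
        rcases lt_or_gt_of_ne h6 with h7 | h7
        · rw [Int.sign_eq_neg_one_of_neg h7]
          norm_num
        · rw [Int.sign_eq_one_of_pos h7]
          norm_num
      rw [h2, abs_mul, h5, one_mul, abs_mul, abs_of_nonneg (by positivity : (0:ℝ) ≤ √(nn z) * √(nn z')),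
        abs_of_pos (Real.cosh_pos _)]
      have h6 : (N : ℝ) ≤ √(nn z) * √(nn z') := by
        calc (N : ℝ) = √N * √N := (Real.mul_self_sqrt hN0.le).symm
          _ ≤ √(nn z) * √(nn z') := mul_le_mul (Real.sqrt_le_sqrt h3) (Real.sqrt_le_sqrt h4)
              (Real.sqrt_nonneg _) (Real.sqrt_nonneg _)
      calc (N : ℝ) ≤ √(nn z) * √(nn z') := h6
        _ = √(nn z) * √(nn z') * 1 := (mul_one _).symm
        _ ≤ √(nn z) * √(nn z') * Real.cosh (dd z z') :=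
          mul_le_mul_of_nonneg_left (Real.one_le_cosh _) (by positivity)
    have h2 : (#{l₂ ∈ Ioc (x : ℤ) (2 * x) | |a2 z z' l₁ l₂ - T| ≤ Y} : ℝ) ≤ (2 * Y) * |(dl z z' : ℝ)| / N + 1 := by
      refine CNI_aff _ (fun l₂ => a2 z z' l₁ l₂) ((N8 z' : ℝ) * l₁) (sp z z') (dl z z') N (2 * Y) hN0
        hsp hd (fun l => rfl) (by linarith) fun l hl l' hl' => ?_
      have h1 := abs_le.mp (mem_filter.mp hl).2
      have h2 := abs_le.mp (mem_filter.mp hl').2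
      show |a2 z z' l₁ l - a2 z z' l₁ l'| ≤ 2 * Y
      rw [abs_le]
      constructor <;> linarith [h1.1, h1.2, h2.1, h2.2]
    have h3 : {l₂ ∈ Ioc (x : ℤ) (2 * x) | |a1 z z' l₁ l₂ - T| ≤ Y ∨ |a2 z z' l₁ l₂ - T| ≤ Y} =
        {l₂ ∈ Ioc (x : ℤ) (2 * x) | |a1 z z' l₁ l₂ - T| ≤ Y} ∪ {l₂ ∈ Ioc (x : ℤ) (2 * x) | |a2 z z' l₁ l₂ - T| ≤ Y} :=
      filter_or _ _ _
    have h4 := card_union_le {l₂ ∈ Ioc (x : ℤ) (2 * x) | |a1 z z' l₁ l₂ - T| ≤ Y}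
      {l₂ ∈ Ioc (x : ℤ) (2 * x) | |a2 z z' l₁ l₂ - T| ≤ Y}
    rw [← h3] at h4
    have h5 : (#{l₂ ∈ Ioc (x : ℤ) (2 * x) | |a1 z z' l₁ l₂ - T| ≤ Y ∨ |a2 z z' l₁ l₂ - T| ≤ Y} : ℝ) ≤
        #{l₂ ∈ Ioc (x : ℤ) (2 * x) | |a1 z z' l₁ l₂ - T| ≤ Y} +
        #{l₂ ∈ Ioc (x : ℤ) (2 * x) | |a2 z z' l₁ l₂ - T| ≤ Y} := by exact_mod_cast h4
    have h6 : 4 * Y * |(dl z z' : ℝ)| / N + 2 = ((2 * Y) * |(dl z z' : ℝ)| / N + 1) + ((2 * Y) * |(dl z z' : ℝ)| / N + 1) := by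
      ring
    rw [h6]
    refine le_trans ?_ (add_le_add h1 h2)
    refine le_trans (le_of_eq ?_) h5
    congr 2

end Pool.Agent.EU
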