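import Pool.Agent.helper52.EU.SpecY

set_option autoImplicit false

open Finset

namespace Pool.Agent.EU

open Pool.Agent.FI Pool.Agent.HK Pool.Agent.BP Pool.Agent.YB
open Pool.Agent.CH (nit)

private theorem SQT_inv (Z N : ℕ) (hZ : 1 ≤ Z) : ∑ p ∈ Ioc Z N, (1 : ℝ) / (p : ℝ) ^ 2 ≤ 1 / Z := by
  rcases Nat.lt_or_ge N Z with h | h
  · rw [Ioc_eq_empty (by omega), sum_empty]
    positivity
  · have key : ∑ p ∈ Ioc Z N, (1 : ℝ) / (p : ℝ) ^ 2 ≤ 1 / Z - 1 / N := by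
      induction N, h using Nat.le_induction with
      | base => simp
      | succ M hM ih =>
        rw [sum_Ioc_succ_top hM]
        have hM0 : (0 : ℝ) < M := by
          have : 1 ≤ M := hZ.trans hM
          exact_mod_cast this
        have h1 : (1 : ℝ) / ((M + 1 : ℕ) : ℝ) ^ 2 ≤ 1 / M - 1 / ((M + 1 : ℕ) : ℝ) := by
          push_cast
          rw [div_sub_div _ _ (by positivity) (by positivity), div_le_div_iff₀ (by positivity) (by positivity)]
          nlinarith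
        linarith
    have : (0 : ℝ) ≤ 1 / N := by positivity
    linarith

theorem SQT (hTAM : Pool.Agent.SK.TAM_stmt) : SQT_stmt := by
  classical
  intro c
  refine ⟨3 ^ c, 2 ^ c, by positivity, fun N Z hN hZ => ?_⟩
  have hlogN : 0 ≤ Real.log N := Real.log_nonneg (by exact_mod_cast hN)
  have hZr : (0 : ℝ) < Z := by exact_mod_cast hZ
  -- sum over the primes
  have h1 : ∑ n ∈ Icc 1 N with (∃ p : ℕ, p.Prime ∧ Z < p ∧ p ^ 2 ∣ n), (#n.divisors : ℝ) ^ c ≤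
      ∑ p ∈ (Ioc Z N).filter Nat.Prime, ∑ n ∈ Icc 1 N with p ^ 2 ∣ n, (#n.divisors : ℝ) ^ c := by
    have h2 : ∑ p ∈ (Ioc Z N).filter Nat.Prime, ∑ n ∈ Icc 1 N with p ^ 2 ∣ n, (#n.divisors : ℝ) ^ c =
        ∑ n ∈ Icc 1 N, ∑ p ∈ (Ioc Z N).filter Nat.Prime, if p ^ 2 ∣ n then (#n.divisors : ℝ) ^ c else 0 := by
      rw [sum_comm]
      refine sum_congr rfl fun p _ => ?_
      rw [sum_filter]
    rw [h2, sum_filter]
    refine sum_le_sum fun n hn => ?_
    have hn' := mem_Icc.mp hn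
    split_ifs with h
    · obtain ⟨p, hp, hZp, hpn⟩ := h
      have hpN : p ≤ N := by
        have h3 : p ^ 2 ≤ n := Nat.le_of_dvd hn'.1 hpn
        have h4 : p ≤ p ^ 2 := Nat.le_self_pow (by norm_num) p
        omega
      have h5 : (#n.divisors : ℝ) ^ c = (if p ^ 2 ∣ n then (#n.divisors : ℝ) ^ c else 0) := by rw [if_pos hpn]
      refine h5.le.trans ?_
      exact single_le_sum (f := fun p => if p ^ 2 ∣ n then (#n.divisors : ℝ) ^ c else 0)
        (fun q _ => by split_ifs <;> positivity)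
        (mem_filter.mpr ⟨mem_Ioc.mpr ⟨hZp, hpN⟩, hp⟩)
    · exact sum_nonneg fun q _ => by split_ifs <;> positivity
  -- one prime
  have h2 : ∀ p ∈ (Ioc Z N).filter Nat.Prime, ∑ n ∈ Icc 1 N with p ^ 2 ∣ n, (#n.divisors : ℝ) ^ c ≤
      3 ^ c * N * (1 + Real.log N) ^ (2 ^ c) * (1 / (p : ℝ) ^ 2) := by
    intro p hp
    have hpp : p.Prime := (mem_filter.mp hp).2
    have hp0 : 0 < p := hpp.pos
    have hp2 : 0 < p ^ 2 := by positivity
    have himg : (Icc 1 N).filter (fun n => p ^ 2 ∣ n) = (Ioc 0 (N / p ^ 2)).image (fun k => p ^ 2 * k) := by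
      ext n
      rw [mem_filter, mem_Icc, mem_image]
      constructor
      · rintro ⟨⟨h3, h4⟩, k, rfl⟩
        refine ⟨k, mem_Ioc.mpr ⟨?_, ?_⟩, rfl⟩
        · rcases Nat.eq_zero_or_pos k with h | h
          · rw [h, mul_zero] at h3
            omega
          · exact h
        · rw [Nat.le_div_iff_mul_le hp2, mul_comm]
          exact h4
      · rintro ⟨k, hk, rfl⟩
        obtain ⟨h3, h4⟩ := mem_Ioc.mp hk
        rw [Nat.le_div_iff_mul_le hp2, mul_comm] at h4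
        exact ⟨⟨Nat.mul_pos hp2 h3, h4⟩, Dvd.intro _ rfl⟩
    rw [himg, sum_image (fun a _ b _ h => Nat.eq_of_mul_eq_mul_left hp2 h)]
    have h3 : ∀ k ∈ Ioc 0 (N / p ^ 2), (#(p ^ 2 * k).divisors : ℝ) ^ c ≤
        3 ^ c * Pool.Agent.helper85.BVP.tau k ^ c := by
      intro k _
      rw [← mul_pow]
      refine pow_le_pow_left₀ (Nat.cast_nonneg _) ?_ c
      have h4 := Pool.Agent.helper85.BVP.tau_mul_le (p ^ 2) k
      have h5 : Pool.Agent.helper85.BVP.tau (p ^ 2) = 3 := by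
        unfold Pool.Agent.helper85.BVP.tau
        rw [Nat.divisors_prime_pow hpp, card_map, card_range]
        norm_num
      rw [h5] at h4
      exact h4
    refine (sum_le_sum h3).trans ?_
    rw [← mul_sum]
    have h4 := (hTAM c (N / p ^ 2)).1
    have h5 : ((N / p ^ 2 : ℕ) : ℝ) ≤ (N : ℝ) * (1 / (p : ℝ) ^ 2) := by
      have := @Nat.cast_div_le ℝ _ _ _ N (p ^ 2)
      push_cast at this
      rw [mul_one_div]
      exact this
    have h6 : (1 + Real.log ((N / p ^ 2 : ℕ) : ℝ)) ^ (2 ^ c) ≤ (1 + Real.log N) ^ (2 ^ c) := by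
      rcases Nat.eq_zero_or_pos (N / p ^ 2) with h | h
      · rw [h, Nat.cast_zero, Real.log_zero, add_zero]
        exact pow_le_pow_left₀ zero_le_one (by linarith) _
      · have h7 : (1 : ℝ) ≤ ((N / p ^ 2 : ℕ) : ℝ) := by exact_mod_cast h
        have h8 : ((N / p ^ 2 : ℕ) : ℝ) ≤ N := by exact_mod_cast Nat.div_le_self N (p ^ 2)
        have h9 : Real.log ((N / p ^ 2 : ℕ) : ℝ) ≤ Real.log N := Real.log_le_log (by linarith) h8
        have h10 : 0 ≤ Real.log ((N / p ^ 2 : ℕ) : ℝ) := Real.log_nonneg h7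
        exact pow_le_pow_left₀ (by linarith) (by linarith) _
    have h7 : (0 : ℝ) ≤ (1 + Real.log N) ^ (2 ^ c) := by positivity
    have h7' : (0 : ℝ) ≤ ((N / p ^ 2 : ℕ) : ℝ) := Nat.cast_nonneg _
    calc (3 : ℝ) ^ c * ∑ k ∈ Ioc 0 (N / p ^ 2), Pool.Agent.helper85.BVP.tau k ^ c
        ≤ 3 ^ c * (((N / p ^ 2 : ℕ) : ℝ) * (1 + Real.log ((N / p ^ 2 : ℕ) : ℝ)) ^ (2 ^ c)) :=
          mul_le_mul_of_nonneg_left h4 (by positivity)
      _ ≤ 3 ^ c * (((N : ℝ) * (1 / (p : ℝ) ^ 2)) * (1 + Real.log N) ^ (2 ^ c)) := by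
          refine mul_le_mul_of_nonneg_left ?_ (by positivity)
          exact (mul_le_mul_of_nonneg_left h6 h7').trans (mul_le_mul_of_nonneg_right h5 h7)
      _ = 3 ^ c * N * (1 + Real.log N) ^ (2 ^ c) * (1 / (p : ℝ) ^ 2) := by ring
  refine h1.trans ((sum_le_sum h2).trans ?_)
  rw [← mul_sum]
  have h3 : ∑ p ∈ (Ioc Z N).filter Nat.Prime, (1 : ℝ) / (p : ℝ) ^ 2 ≤ 1 / Z :=
    (sum_le_sum_of_subset_of_nonneg (filter_subset _ _) fun p _ _ => by positivity).trans (SQT_inv Z N hZ)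
  calc 3 ^ c * (N : ℝ) * (1 + Real.log N) ^ (2 ^ c) * ∑ p ∈ (Ioc Z N).filter Nat.Prime, (1 : ℝ) / (p : ℝ) ^ 2
      ≤ 3 ^ c * (N : ℝ) * (1 + Real.log N) ^ (2 ^ c) * (1 / Z) := mul_le_mul_of_nonneg_left h3 (by positivity)
    _ = 3 ^ c * N * (1 + Real.log N) ^ (2 ^ c) / Z := by ring

end Pool.Agent.EU
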